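import Pool.Agent.H673R3.UC.Z1

set_option autoImplicit false

/-!
# `NP ∩ coNP` contains no set that is hard for `UP ∩ coUP`, relative to a random oracle

Wraps `Pool.Agent.H673R3.UC` (hidden blocks), which builds on the libraries `H583R2/NC` and
`H628R3/RO`; these helper files of the starting repository were never handed in for this statement.
-/

namespace Pool.Agent.Results.MP_c2284b_lc.HardForUP

open MeasureTheory Pool.Agent.H628R3.RO

/-- For almost every oracle `A`: for every `K` in `NP ∩ coNP` there is an `L` in `UP ∩ coUP` that is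
not many-one reducible to `K`; hence no class between `UP ∩ coUP` and `NP ∩ coNP` has a complete
set. -/
theorem result : ∀ᵐ A ∂randomOracle,
    (∀ K : Set (List Bool), IsNP A K → IsCoNP A K →
      ∃ L : Set (List Bool), IsUP A L ∧ IsUP A Lᶜ ∧ ¬ Red A L K) ∧
    ∀ C : Set (Set (List Bool)), (∀ L, IsUP A L → IsUP A Lᶜ → L ∈ C) →
      (∀ L ∈ C, IsNP A L ∧ IsCoNP A L) → ¬ ∃ K ∈ C, ∀ L ∈ C, Red A L K := by
  filter_upwards [Pool.Agent.H673R3.UC.main_N] with A hA
  refine ⟨hA, ?_⟩
  rintro C h1 h2 ⟨K, hK, hr⟩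
  obtain ⟨L, hL, hLc, hn⟩ := hA K (h2 K hK).1 (h2 K hK).2
  exact hn (hr L (h1 L hL hLc))

end Pool.Agent.Results.MP_c2284b_lc.HardForUP
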